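import Mathlib
import Pool.Agent.R473.DW.Wrd

/-!
# Elements of the algebra of multiple zeta values at the arguments `a_i n + b_i`: digits, `S`-units
-/

set_option autoImplicit false

namespace Pool.Agent.Results.MP_f3dc73_nt.AlgebraDigits

open Pool.Agent.R473.DW Pool.Agent.Y760.RT Pool.Agent.TH507.ZS Pool.Agent.R473.TB

/-- `trunc [s_1, ..., s_r] m` is the sum of `∏ k_i ^ (-s_i)` over `m > k_1 > ... > k_r ≥ 1` -/
noncomputable def trunc : List ℕ → ℕ → ℝ
  | [], _ => 1
  | s :: l, m => ∑ j ∈ Finset.Ico 1 m, trunc l j / (j : ℝ) ^ s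

/-- the multiple zeta value whose argument `s_1` belongs to the largest variable, `ζ(s_r, ..., s_1)`
in the notation of the problem -/
noncomputable def mzv : List ℕ → ℝ
  | [] => 1
  | s :: l => ∑' k : ℕ, trunc l (k + 1) / ((k + 1 : ℕ) : ℝ) ^ s

/-- words in the letters `(a, b)`, `a ≥ 1`, `b ≥ 0` -/
abbrev Word : Type := List (ℕ+ × ℕ)

/-- the value of a word at `n`: the multiple zeta value with the arguments `a n + b` -/
noncomputable def value (n : ℕ) (w : Word) : ℝ := mzv (w.map fun x => (x.1 : ℕ) * n + x.2)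

/-- the stuffle product of two words, as a list of words; the sum of two letters `(a, b)`,
`(a', b')` is `(a + a', b + b')` -/
def stuffle : Word → Word → List Word
  | [], v => [v]
  | x :: u, [] => [x :: u]
  | x :: u, y :: v => (stuffle u (y :: v)).map (x :: ·) ++ (stuffle (x :: u) v).map (y :: ·) ++
      (stuffle u v).map ((x + y) :: ·)
termination_by u v => u.length + v.length

/-- the stuffle product of several words -/
def stuffles : List Word → List Word
  | [] => [[]]
  | u :: M => (stuffles M).flatMap (stuffle u)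

/-- the stuffle expansion of a rational combination of products (lists) of words -/
noncomputable def expansion : (List Word →₀ ℚ) →ₗ[ℚ] (Word →₀ ℚ) :=
  Finsupp.linearCombination ℚ fun M => ((stuffles M).map fun w => Finsupp.single w 1).sum

/-- the value at `n` of a rational combination of products of words -/
noncomputable def eval (n : ℕ) : (List Word →₀ ℚ) →ₗ[ℚ] ℝ :=
  Finsupp.linearCombination ℚ fun M => (M.map (value n)).prod

/-- the `k`-th digit after the point of `x` in base `b` (`k = 0` is the first one) -/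
noncomputable def digit (b : ℕ) (x : ℝ) (k : ℕ) : ℤ := ⌊(b : ℝ) ^ (k + 1) * x⌋ % b

/-- the number of different blocks of `n` consecutive digits of `x` in base `b` -/
noncomputable def blocks (b : ℕ) (x : ℝ) (n : ℕ) : ℕ :=
  (Set.range fun i : ℕ => fun j : Fin n => digit b x (i + j)).ncard

/-- `D` is a sum of `R` terms `a ∏ p ^ k(p)` over `p ∈ S`, with integers `|a| ≤ R` and integers
`|k(p)| ≤ X` -/
def SUnitSum (S : Finset ℕ) (R : ℕ) (X : ℝ) (D : ℚ) : Prop :=
  ∃ (a : Fin R → ℤ) (k : Fin R → ℕ → ℤ), (∀ r, |a r| ≤ R) ∧ (∀ r, ∀ p ∈ S, |(k r p : ℝ)| ≤ X) ∧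
    D = ∑ r, (a r : ℚ) * ∏ p ∈ S, (p : ℚ) ^ k r p

lemma expansion_eq : expansion = Pool.Agent.Y760.ST.expand := by
  have h3 : ∀ u v, stuffle u v = Pool.Agent.TH507.WD.st u v := by
    intro u v
    induction u, v using Pool.Agent.TH507.WD.st.induct with
    | case1 v => rw [stuffle, Pool.Agent.TH507.WD.st]
    | case2 x u => rw [stuffle, Pool.Agent.TH507.WD.st]
    | case3 x u y v ih1 ih2 ih3 => rw [stuffle, Pool.Agent.TH507.WD.st, ih1, ih2, ih3]
  have h4 : ∀ M, stuffles M = Pool.Agent.TH507.WD.stl M := by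
    intro M
    induction M with
    | nil => rw [stuffles, Pool.Agent.TH507.WD.stl]
    | cons u M ih =>
      rw [stuffles, Pool.Agent.TH507.WD.stl, ih]
      congr 1
      funext v
      exact h3 u v
  unfold expansion Pool.Agent.Y760.ST.expand
  simp only [h4]

lemma eval_eq (n : ℕ) : eval n = Pool.Agent.Y760.ST.valP n := by
  have h1 : ∀ l m, trunc l m = Pool.Agent.TH507.WD.hr l m := by
    intro l
    induction l with
    | nil => intro m; rw [trunc, Pool.Agent.TH507.WD.hr]
    | cons s l ih =>
      intro m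
      rw [trunc, Pool.Agent.TH507.WD.hr]
      exact Finset.sum_congr rfl fun j _ => by rw [ih]
  have h2 : ∀ l, mzv l = Pool.Agent.TH507.WD.mz l := by
    intro l
    cases l with
    | nil => rw [mzv, Pool.Agent.TH507.WD.mz]
    | cons s l =>
      rw [mzv, Pool.Agent.TH507.WD.mz]
      exact tsum_congr fun k => by rw [h1]
  unfold eval Pool.Agent.Y760.ST.valP
  have h7 : (fun M : List Word => (M.map (value n)).prod) = fun M =>
      (M.map fun u => Pool.Agent.TH507.WD.mz (Pool.Agent.TH507.WD.ar n u)).prod := by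
    funext M
    have h8 : value n = fun u => Pool.Agent.TH507.WD.mz (Pool.Agent.TH507.WD.ar n u) := by
      funext u
      rw [value, h2, Pool.Agent.TH507.WD.ar]
    rw [h8]
  rw [h7]

/-- **Result.** Let `x_1, …, x_m` be rational combinations of products of words such that no
nontrivial rational combination of their stuffle expansions is a constant; let `x_s(n)` be the value
of `x_s` at `n` (a word in the letters `(a, b)` is the multiple zeta value with the arguments
`a n + b`).
(1) For every finite set `S` of primes there is `K ≥ 2` such that for all `R`, `C` and `B > 1`, all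
large `n`, all `D_1, …, D_m`, not all zero, which are sums of at most `R` `S`-units of height
exponential in `C n`, and all integers `p`:
`|D_1 x_1(n) + … + D_m x_m(n) - p| > B ^ (-n) min(1, |D_i| K ^ (-n))` for every `i`.
(2) For every base `b` there is `κ` such that for all `ε > 0` and `C` and all large `n` no word of
at least `ε n` digits occurs at two different places, not both before `κ n`, in the first `C n`
digits of the expansions of `x_1(n), …, x_m(n)` in base `b`.
(3) For every base `b`, every `C` and every `y` with nonconstant stuffle expansion the expansion of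
`y(n)` in base `b` has more than `C n` different blocks of `n` digits, for all large `n`. -/
theorem result (m : ℕ) (x : Fin m → List Word →₀ ℚ)
    (hx : ∀ (v : Fin m → ℚ) (c : ℚ), ∑ s, v s • expansion (x s) = Finsupp.single [] c → v = 0) :
    (∀ S : Finset ℕ, (∀ p ∈ S, p.Prime) → ∃ K : ℕ, 2 ≤ K ∧ ∀ (R : ℕ) (C B : ℝ), 1 < B →
      ∃ n0 : ℕ, ∀ n : ℕ, n0 ≤ n → ∀ D : Fin m → ℚ, (∀ s, SUnitSum S R (C * n) (D s)) →
      (∃ s, D s ≠ 0) → ∀ (p : ℤ) (i : Fin m),
      (B ^ n)⁻¹ * min 1 (|(D i : ℝ)| / (K : ℝ) ^ n) < |∑ s, (D s : ℝ) * eval n (x s) - p|) ∧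
    (∀ b : ℕ, 2 ≤ b → ∃ κ : ℝ, ∀ ε C : ℝ, 0 < ε → ∃ n0 : ℕ, ∀ n : ℕ, n0 ≤ n →
      ∀ (s t : Fin m) (i j : ℕ), (i : ℝ) ≤ C * n → (j : ℝ) ≤ C * n →
      κ * n ≤ max i j → (s, i) ≠ (t, j) → ∃ l : ℕ, (l : ℝ) < ε * n ∧
        digit b (eval n (x s)) (i + l) ≠ digit b (eval n (x t)) (j + l)) ∧
    (∀ b : ℕ, 2 ≤ b → ∀ y : List Word →₀ ℚ, (∀ c, expansion y ≠ Finsupp.single [] c) →
      ∀ C : ℝ, ∃ n0 : ℕ, ∀ n : ℕ, n0 ≤ n → C * n < blocks b (eval n y) n) := by
  rw [expansion_eq] at hx ⊢
  simp only [eval_eq]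
  exact ⟨fun _ hS => wd_forms x hx hS, fun _ hb => wd_digits x hx hb,
    fun _ hb y hy C => wd_blocks y hy hb C⟩

end Pool.Agent.Results.MP_f3dc73_nt.AlgebraDigits
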