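import Mathlib
import Pool.Agent.R404.DZ.C

/-!
# Polynomials in zeta values with a growing number of variables

Let `D` be a number and `0 < θ < 1 / (D + 1)`, `γ < 1 - D θ`, `ε > D θ`. For large `N` and
`J ≤ N ^ θ` no nonzero polynomial in `ζ(N), ζ(N + 1), ..., ζ(N + J)` of degree at most `D` with
integer coefficients of total size at most `2 ^ (N ^ γ)` is zero; it is even different from all real
combinations, with coefficients at most `C ^ N`, of multiple zeta values of weight at most `κ N` with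
at least `ε N` arguments `≥ 2`, and the distance is at least `N ^ (-ε N)`. The number of monomials
may be as large as `N ^ (D θ) / D!`, where `D θ` is as close to `1` as one likes.

The proof is elementary: arithmetic functions, multiplicativity and primes of size `N ^ θ`.
-/

set_option autoImplicit false

namespace Pool.Agent.Results.MP_f3dc73_nt.GrowingPolynomials

/-- `trunc [s_1, ..., s_r] m` is the sum of `∏ k_i ^ (-s_i)` over `m > k_1 > ... > k_r ≥ 1` -/
noncomputable def trunc : List ℕ → ℕ → ℝ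
  | [], _ => 1
  | s :: l, m => ∑ j ∈ Finset.Ico 1 m, trunc l j / (j : ℝ) ^ s

/-- the multiple zeta value whose argument `s_1` belongs to the largest variable, `ζ(s_r, ..., s_1)`
in the notation of the problem -/
noncomputable def mzv : List ℕ → ℝ
  | [] => 1
  | s :: l => ∑' m : ℕ, trunc l (m + 1) / ((m + 1 : ℕ) : ℝ) ^ s

/-- the zeta value -/
noncomputable def zeta (k : ℕ) : ℝ := ∑' m : ℕ, 1 / ((m + 1 : ℕ) : ℝ) ^ k

/-- the number of arguments `≥ 2` -/
def height (w : List ℕ) : ℕ := w.countP (fun s => decide (2 ≤ s))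

/-- nonempty lists of positive integers, the first one at least `2` -/
def Admissible (w : List ℕ) : Prop := (∀ x ∈ w, 1 ≤ x) ∧ ∃ a ∈ w.head?, 2 ≤ a

/-- the sum of the absolute values of the coefficients -/
noncomputable def length {J : ℕ} (P : MvPolynomial (Fin (J + 1)) ℤ) : ℝ :=
  ∑ M ∈ P.support, |((P.coeff M : ℤ) : ℝ)|

lemma trunc_eq (w : List ℕ) : ∀ m, trunc w m = Pool.Agent.Y760.ZG.hr w m := by
  induction w with
  | nil => intro m; rw [trunc, Pool.Agent.Y760.ZG.hr_nil]
  | cons s w ih =>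
    intro m
    rw [trunc, Pool.Agent.Y760.ZG.hr_cons]
    exact Finset.sum_congr rfl fun j _ => by rw [ih]

lemma mzv_eq : mzv = Pool.Agent.Y760.ZG.mz := by
  funext w
  cases w with
  | nil => rw [mzv, Pool.Agent.Y760.ZG.mz]
  | cons s w =>
    rw [mzv, Pool.Agent.Y760.ZG.mz]
    exact tsum_congr fun m => by rw [trunc_eq]

/-- Let `D` be a natural number, `0 < θ`, `(D + 1) θ < 1`, `γ + D θ < 1`, `D θ < ε` and let `κ, C` be
real numbers. For all large `N`, all `J ≤ N ^ θ`, all nonzero polynomials `P` in `J + 1` variables of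
total degree at most `D` with integer coefficients and `length P ≤ 2 ^ (N ^ γ)`, all finite sets `H`
of admissible indices of weight at most `κ N` with at least `ε N` arguments `≥ 2` and all real
numbers `b_h` with `|b_h| ≤ C ^ N`:
`|P(ζ(N), ζ(N + 1), ..., ζ(N + J)) - ∑_H b_h ζ(h)| > N ^ (-ε N)`. -/
theorem result (D : ℕ) (θ γ ε κ C : ℝ) (hθ : 0 < θ) (hθD : (D + 1) * θ < 1) (hγ : γ + D * θ < 1)
    (hε : D * θ < ε) :
    ∃ N0 : ℕ, ∀ N : ℕ, N0 ≤ N → ∀ J : ℕ, (J : ℝ) ≤ (N : ℝ) ^ θ →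
      ∀ P : MvPolynomial (Fin (J + 1)) ℤ, P ≠ 0 → P.totalDegree ≤ D →
      length P ≤ (2 : ℝ) ^ ((N : ℝ) ^ γ) →
      ∀ H : Finset (List ℕ),
      (∀ h ∈ H, Admissible h ∧ (h.sum : ℝ) ≤ κ * N ∧ ε * N ≤ height h) →
      ∀ b : List ℕ → ℝ, (∀ h ∈ H, |b h| ≤ C ^ N) →
      ((N : ℝ) ^ (ε * N))⁻¹ <
        |(MvPolynomial.aeval (fun i : Fin (J + 1) => zeta (N + (i : ℕ))) P : ℝ) -
          ∑ h ∈ H, b h * mzv h| := by
  rw [mzv_eq]
  obtain ⟨N0, h0⟩ := Pool.Agent.R404.DZ.asyP D θ γ ε κ C hθ hθD hγ hε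
  refine ⟨N0, fun N hN J hJ P hP hPD hPL H hH b hb => ?_⟩
  exact h0 N hN J hJ P hP hPD hPL H (fun h hh => ⟨(hH h hh).1.1, fun x hx => by
    obtain ⟨a, ha, h5⟩ := (hH h hh).1.2
    rw [Option.mem_def] at ha hx
    rw [ha, Option.some_inj] at hx
    rwa [← hx], (hH h hh).2.1, (hH h hh).2.2⟩) b hb

end Pool.Agent.Results.MP_f3dc73_nt.GrowingPolynomials
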