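import Mathlib
import Pool.Agent.R390.MZ.Super

set_option autoImplicit false

/-!
# An inequality for the Hilbert function of the algebra of multiple zeta values

Let `z_k = dim Z_k` and `D_k = dim H_k` be the Hilbert functions of the algebra of multiple zeta
values and of the algebra with which it is compared.  Then
`z_(k+i+j) - z_(k+i) - z_(k+j) + z_k ≤ D_(k+i+j) - D_(k+i) - D_(k+j) + D_k` for all `k` and all
`i ≥ 5`, `j ≥ 2`, and also for `{i, j} = {2, 3}` and `{3, 4}`.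
-/

open Pool.Agent.R390.MZ

namespace Pool.Agent.Results.MP_f3dc73_nt.HilbertInequality

/-- `Z w` is the `ℚ`-span of all multiple zeta values
`ζ(n_1, …, n_r) = ∑_{k_1 > … > k_r ≥ 1} ∏ k_i ^ (-n_i)` (`n_i ≥ 1`, `n_1 ≥ 2`) of weight `w`; the
empty index has the value `1` and the weight `0`. (In the problem file the order of the arguments is
reversed.) -/
noncomputable def Z (w : ℕ) : Submodule ℚ ℝ :=
  Submodule.span ℚ
    {x : ℝ | ∃ r : ℕ, ∃ n : Fin r → ℕ,
      (∀ i, 1 ≤ n i) ∧ (∀ h : 0 < r, 2 ≤ n ⟨0, h⟩) ∧ (∑ i, n i) = w ∧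
      x = ∑' k : {k : Fin r → ℕ // StrictAnti k ∧ ∀ i, 1 ≤ k i},
            ∏ i, (((k.1 i : ℕ) : ℝ) ^ (n i))⁻¹}

/-- the mixed second difference `f (k + i + j) - f (k + i) - f (k + j) + f k` -/
def mixed (f : ℕ → ℤ) (k i j : ℕ) : ℤ := f (k + i + j) - f (k + i) - f (k + j) + f k

lemma Z_ne_bot {k : ℕ} (hk : k ≠ 1) : Z k ≠ ⊥ := Zs_ne_bot hk

/-- Assume Brown's theorem (`Gen Z dz`). Then the mixed second differences of the Hilbert function
`z_k = dim Z_k` are at most those of `D_k` (`D_0 = 1`, `D_1 = 0`, `D_2 = 1`,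
`D_k = D_(k-2) + D_(k-3)`), for all `k` and all `i ≥ 5`, `j ≥ 2`, and for `(i, j) = (2, 3)` and
`(i, j) = (4, 3)`. -/
theorem result (hB : Gen Z dz) (i j : ℕ)
    (hij : (5 ≤ i ∧ 2 ≤ j) ∨ (i = 2 ∧ j = 3) ∨ (i = 4 ∧ j = 3)) (k : ℕ) :
    mixed (fun l => Module.finrank ℚ (Z l)) k i j ≤ mixed (fun l => dz l) k i j := by
  obtain ⟨σ, wt, x, hd, hZ⟩ := hB
  have h := super_hom hd hZ (fun k hk => Z_ne_bot hk) hij k
  have hfin := finite_H hd
  have e : ∀ l, (Module.finrank ℚ (Z l) : ℤ) =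
      dz l - (Module.finrank ℚ (pt (H wt) (Ph wt x) l) : ℤ) := by
    intro l
    have h1 := finrank_map_add (finrank_H hd) (MvPolynomial.aeval (R := ℚ) x).toLinearMap
      (P := Ph wt x) (k := l) (fun f hf => mem_Ph_of_mem_H hf)
    rw [← Z_eq hZ] at h1
    rw [← h1]
    push_cast
    ring
  simp only [mixed]
  rw [e, e, e, e]
  have h2 : (Module.finrank ℚ (pt (H wt) (Ph wt x) (k + i)) : ℤ) +
      Module.finrank ℚ (pt (H wt) (Ph wt x) (k + j)) ≤
      Module.finrank ℚ (pt (H wt) (Ph wt x) (k + i + j)) +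
        Module.finrank ℚ (pt (H wt) (Ph wt x) k) := by exact_mod_cast h
  linarith

end Pool.Agent.Results.MP_f3dc73_nt.HilbertInequality
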