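import Mathlib
import Pool.Agent.R390.MZ.Full

set_option autoImplicit false

/-!
# The algebra of multiple zeta values: three cases for its structure

By Brown's theorem the graded algebra `⨁ Z_k` is a quotient of a weighted polynomial ring
`R = ℚ[X_s]` with the Hilbert series `1 / (1 - t² - t³)` by a homogeneous prime ideal `P`.  The
question is whether `P = 0`.  If not, then either `⨁ Z_k = R / (f)` for a homogeneous prime `f` of
some weight `n ≥ 5`, and the Hilbert series is `(1 - tⁿ) / (1 - t² - t³)`, or `P` contains two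
homogeneous relations without common factor of weights `m ≥ n ≥ 5`; then the Hilbert series is
`(1 - tⁿ) / (1 - t² - t³)` up to the weight `m - 1`, and coefficientwise at most
`(1 - tⁿ) (1 - tᵐ) / (1 - t² - t³)`.
-/

open Pool.Agent.R390.MZ MvPolynomial

namespace Pool.Agent.Results.MP_f3dc73_nt.QuotientStructure

/-- `Z w` is the `ℚ`-span of all multiple zeta values
`ζ(n_1, …, n_r) = ∑_{k_1 > … > k_r ≥ 1} ∏ k_i ^ (-n_i)` (`n_i ≥ 1`, `n_1 ≥ 2`) of weight `w`; the
empty index has the value `1` and the weight `0`. (In the problem file the order of the arguments is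
reversed.) -/
noncomputable def Z (w : ℕ) : Submodule ℚ ℝ :=
  Submodule.span ℚ
    {x : ℝ | ∃ r : ℕ, ∃ n : Fin r → ℕ,
      (∀ i, 1 ≤ n i) ∧ (∀ h : 0 < r, 2 ≤ n ⟨0, h⟩) ∧ (∑ i, n i) = w ∧
      x = ∑' k : {k : Fin r → ℕ // StrictAnti k ∧ ∀ i, 1 ≤ k i},
            ∏ i, (((k.1 i : ℕ) : ℝ) ^ (n i))⁻¹}

lemma Z_ne_bot {k : ℕ} (hk : k ≠ 1) : Z k ≠ ⊥ := Zs_ne_bot hk

/-- `f` is homogeneous of weight `n`, vanishes at the point `x` and is a prime element -/
def PrimeRelation {σ : Type} (wt : σ → ℕ) (x : σ → ℝ) (f : MvPolynomial σ ℚ) (n : ℕ) : Prop :=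
  IsWeightedHomogeneous wt f n ∧ aeval x f = 0 ∧ Prime f

/-- Let `x_s` be numbers of weight `wt s` which generate the spaces `Z_k` of multiple zeta values with
`d_k` monomials of weight `k` (for example, by Brown's theorem, the multiple zeta values of the
Lyndon words in `2` and `3`). Then one of the following holds, where `d_k = 0` for `k < 0`.
(i) The `x_s` satisfy no nonzero homogeneous polynomial relation, and `dim Z_k = d_k` for all `k`: the
algebra `⨁ Z_k` is the polynomial algebra in the `x_s`.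
(ii) There is a homogeneous prime polynomial `f` of weight `n ≥ 5` such that the homogeneous
polynomial relations between the `x_s` are exactly the homogeneous multiples of `f`; and
`dim Z_k = d_k - d_(k-n)` for all `k`.
(iii) There are homogeneous relations `f`, `g` of weights `n`, `m` with `5 ≤ n ≤ m`, `f` prime and `g`
not a multiple of `f`, such that the homogeneous relations of weight less than `m` are multiples of
`f`; and `dim Z_k = d_k - d_(k-n)` for all `k < m`, and `dim Z_k ≤ d_k - d_(k-n)` and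
`dim Z_k ≤ d_k - d_(k-n) - d_(k-m) + d_(k-n-m)` for all `k`. -/
theorem result {σ : Type} (wt : σ → ℕ) (x : σ → ℝ) (hB : Gens Z dz wt x) :
    ((∀ g k, IsWeightedHomogeneous wt g k → aeval x g = 0 → g = (0 : MvPolynomial σ ℚ)) ∧
      ∀ k, Module.finrank ℚ (Z k) = dz k) ∨
    (∃ (f : MvPolynomial σ ℚ) (n : ℕ), 5 ≤ n ∧ PrimeRelation wt x f n ∧
      (∀ g k, IsWeightedHomogeneous wt g k → (aeval x g = 0 ↔ f ∣ g)) ∧
      ∀ k, Module.finrank ℚ (Z k) + sh dz n k = dz k) ∨
    (∃ (f g : MvPolynomial σ ℚ) (n m : ℕ), 5 ≤ n ∧ n ≤ m ∧ PrimeRelation wt x f n ∧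
      IsWeightedHomogeneous wt g m ∧ aeval x g = 0 ∧ ¬ f ∣ g ∧
      (∀ h k, k < m → IsWeightedHomogeneous wt h k → (aeval x h = 0 ↔ f ∣ h)) ∧
      (∀ k < m, Module.finrank ℚ (Z k) + sh dz n k = dz k) ∧
      ∀ k, Module.finrank ℚ (Z k) + sh dz n k ≤ dz k ∧
        Module.finrank ℚ (Z k) + sh dz n k + sh dz m k ≤ dz k + sh dz (n + m) k) := by
  obtain ⟨hd, hZ⟩ := hB
  have hH : ∀ (g : MvPolynomial σ ℚ) k, IsWeightedHomogeneous wt g k ↔ g ∈ H wt k := by
    intro g k
    rw [H, mem_A]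
    exact ⟨fun h m hm => h hm, fun h m hm => h m hm⟩
  have h0 : Z 0 ≠ ⊥ := Z_ne_bot (by norm_num)
  have h2 : Z 2 ≠ ⊥ := Z_ne_bot (by norm_num)
  have h3 : Z 3 ≠ ⊥ := Z_ne_bot (by norm_num)
  have h4 : Z 4 ≠ ⊥ := Z_ne_bot (by norm_num)
  rcases tri_hom rfl hd hZ with
    ⟨hP, h⟩ | ⟨f, n, hf, hp, he, hP, h⟩ | ⟨f, n, g, m, hnm, hf, hp, he, hg, hfg, he', h6, h5, h⟩
  · refine Or.inl ⟨fun g k hg hx => ?_, h⟩
    have := (mem_Ph_of_mem_H ((hH g k).1 hg)).2 hx
    rw [hP] at this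
    simpa using this
  · refine Or.inr (Or.inl ⟨f, n, five_le hd hZ h0 h2 h3 h4 hf he, ⟨(hH f n).2 he.2.1,
      (mem_Ph_of_mem_H he.2.1).1 hf, hp⟩, fun g k hg => ?_, h⟩)
    rw [← mem_Ph_of_mem_H ((hH g k).1 hg), hP, Ideal.mem_span_singleton]
  · refine Or.inr (Or.inr ⟨f, g, n, m, five_le hd hZ h0 h2 h3 h4 hf he, hnm,
      ⟨(hH f n).2 he.2.1, (mem_Ph_of_mem_H he.2.1).1 hf, hp⟩,
      (hH g m).2 he'.2.1, (mem_Ph_of_mem_H he'.2.1).1 hg, hfg, fun a k hk ha => ?_, h5, h⟩)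
    rw [← mem_Ph_of_mem_H ((hH a k).1 ha)]
    exact ⟨fun h7 => h6 k hk a ((hH a k).1 ha) h7, fun h7 => Ideal.mem_of_dvd _ h7 hf⟩

end Pool.Agent.Results.MP_f3dc73_nt.QuotientStructure
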